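import Pool.Agent.Run7.h412.EC.Pair

/-!
# Verification of proofs and entanglement: averaging over all pairs
-/

set_option autoImplicit false

namespace Pool.Agent.Run7.h412.EC

open Pool.Agent.W959 Pool.Agent.W959.Ent Pool.Agent.TH457.EntD
open Pool.Agent.Run7.h412.MA (chernoff)

section boost

variable {Ω : Type} [Fintype Ω] (p : Ω → ℝ)

theorem sum_not (hp1 : ∑ ω, p ω = 1) (Ok : Ω → Prop) :
    ∑ ω, p ω * ind (¬ Ok ω) = 1 - ∑ ω, p ω * ind (Ok ω) := by
  rw [eq_sub_iff_add_eq, ← Finset.sum_add_distrib, ← hp1]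
  refine Finset.sum_congr rfl fun ω _ => ?_
  by_cases h : Ok ω
  · rw [ind_true h, ind_false (not_not.2 h)]; ring
  · rw [ind_false h, ind_true h]; ring

theorem boost1 (hp0 : ∀ ω, 0 ≤ p ω) (hp1 : ∑ ω, p ω = 1) (Ok : Ω → Prop) {δ : ℝ} (hδ : 0 < δ)
    (h : ∑ ω, p ω * ind (Ok ω) ≤ 1 / 2 - δ) (K : ℕ) :
    ∑ ω : Fin K → Ω, (∏ l, p (ω l)) * ind ((K : ℝ) < 2 * ∑ i, ind (Ok (ω i))) ≤
      (1 - 2 * δ ^ 2) ^ K := by
  refine le_trans (Finset.sum_le_sum fun ω _ => ?_) (chernoff p hp0 hp1 Ok hδ h K)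
  apply mul_le_mul_of_nonneg_left _ (Finset.prod_nonneg fun l _ => hp0 _)
  exact ind_mono fun h => h.le

theorem boost2 (hp0 : ∀ ω, 0 ≤ p ω) (hp1 : ∑ ω, p ω = 1) (Ok : Ω → Prop) {δ : ℝ} (hδ : 0 < δ)
    (h : 1 / 2 + δ ≤ ∑ ω, p ω * ind (Ok ω)) (K : ℕ) :
    1 - (1 - 2 * δ ^ 2) ^ K ≤
      ∑ ω : Fin K → Ω, (∏ l, p (ω l)) * ind ((K : ℝ) < 2 * ∑ i, ind (Ok (ω i))) := by
  have h1 := chernoff p hp0 hp1 (fun ω => ¬ Ok ω) hδ (by rw [sum_not p hp1]; linarith) K
  have h2 : ∀ ω : Fin K → Ω, (∏ l, p (ω l)) -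
      (∏ l, p (ω l)) * ind ((K : ℝ) ≤ 2 * ∑ i, ind (¬ Ok (ω i))) ≤
      (∏ l, p (ω l)) * ind ((K : ℝ) < 2 * ∑ i, ind (Ok (ω i))) := by
    intro ω
    have h0 : 0 ≤ ∏ l, p (ω l) := Finset.prod_nonneg fun l _ => hp0 _
    by_cases h : (K : ℝ) ≤ 2 * ∑ i, ind (¬ Ok (ω i))
    · rw [ind_true h, mul_one, sub_self]
      exact mul_nonneg h0 (ind_nonneg _)
    · rw [ind_false h, mul_zero, sub_zero, ind_true, mul_one]
      push Not at h
      have h4 : ∑ i, ind (¬ Ok (ω i)) + ∑ i, ind (Ok (ω i)) = K := by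
        rw [← Finset.sum_add_distrib]
        calc _ = ∑ _i : Fin K, (1 : ℝ) := by
              refine Finset.sum_congr rfl fun i _ => ?_
              by_cases h : Ok (ω i)
              · rw [ind_true h, ind_false (not_not.2 h)]; ring
              · rw [ind_false h, ind_true h]; ring
          _ = K := by simp
      linarith
  have h3 := Finset.sum_le_sum fun ω (_ : ω ∈ (Finset.univ : Finset (Fin K → Ω))) => h2 ω
  rw [Finset.sum_sub_distrib, total p hp1] at h3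
  linarith

end boost

variable {k n w s b T m N W K : ℕ}

/-- the memory of the independent copies -/
def BB {Ω : Type} (B : Ω → Fin s → Board k (Finset (Fin n)) (Fin (2 ^ w))) (ω : Fin K → Ω) :
    Fin (K * s) → Board k (Finset (Fin n)) (Fin (2 ^ w)) :=
  fun c => B (ω (finProdFinEquiv.symm c).1) (finProdFinEquiv.symm c).2

theorem BB_apply {Ω : Type} (B : Ω → Fin s → Board k (Finset (Fin n)) (Fin (2 ^ w)))
    (ω : Fin K → Ω) (i : Fin K) (c : Fin s) : BB B ω (finProdFinEquiv (i, c)) = B (ω i) c := by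
  unfold BB
  rw [Equiv.symm_apply_apply]

theorem own_BB {Ω : Type} (B : Ω → Fin s → Board k (Finset (Fin n)) (Fin (2 ^ w)))
    (ω : Fin K → Ω) (F : Fin k → Finset (Fin n)) (i j : Fin k) :
    (own b (BB B ω) F i j).card = ∑ l, (own b (B (ω l)) F i j).card := by
  unfold own
  simp only [Finset.card_filter]
  rw [← Equiv.sum_comp (finProdFinEquiv (m := K) (n := s)), Fintype.sum_prod_type]
  simp only [BB_apply]

/-- the vote of the copies -/
theorem vote_iff {Ω : Type} (B : Ω → Fin s → Board k (Finset (Fin n)) (Fin (2 ^ w)))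
    (t : Ω → QTree s (Fin (2 ^ w)) Bool) (ω : Fin K → Ω) (F : Fin k → Finset (Fin n)) :
    (ampQ T K fun i => t (ω i)).run (fun c => (BB B ω c).run F) = true ↔
      (K : ℝ) < 2 * ∑ i, ind ((t (ω i)).run (fun c => (B (ω i) c).run F) = true ∧
        (t (ω i)).cost (fun c => (B (ω i) c).run F) ≤ T) := by
  rw [ampQ_run]
  simp only [BB_apply, cut_run]
  have hcast : ((∑ i, if ((t (ω i)).run (fun c => (B (ω i) c).run F) = true ∧
      (t (ω i)).cost (fun c => (B (ω i) c).run F) ≤ T) then 1 else 0 : ℕ) : ℝ) =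
      ∑ i, ind ((t (ω i)).run (fun c => (B (ω i) c).run F) = true ∧
        (t (ω i)).cost (fun c => (B (ω i) c).run F) ≤ T) := by
    push_cast
    refine Finset.sum_congr rfl fun i _ => ?_
    by_cases h : (t (ω i)).run (fun c => (B (ω i) c).run F) = true ∧
        (t (ω i)).cost (fun c => (B (ω i) c).run F) ≤ T
    · rw [if_pos h, ind_true h]
    · rw [if_neg h, ind_false h]
  rw [← hcast]
  constructor
  · intro h
    exact_mod_cast h
  · intro h
    exact_mod_cast h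

/-- **One pair.** -/
theorem one_pair (hb : 1 ≤ b) (hwb : w ≤ b)
    (hm : 100 * (3 * b * (K * T) + 12 + K) ≤ m) (hn : n = m ^ 2) (hk : 1 ≤ k)
    (hN : 400 * (k * m) ≤ N)
    {Ω : Type} [Fintype Ω] (p : Ω → ℝ) (hp0 : ∀ ω, 0 ≤ p ω) (hp1 : ∑ ω, p ω = 1)
    (B : Ω → Fin s → Board k (Finset (Fin n)) (Fin (2 ^ w))) {i j : Fin k} (hij : i ≠ j)
    {δ : ℝ} (hδ : 0 < δ) (hδ2 : δ ≤ 1 / 2)
    (t : Ω → Fin W → QTree s (Fin (2 ^ w)) Bool)
    (hcomp : ∀ F : Fin k → Finset (Fin n), ∑ l, (F l).card ≤ N → Disjoint (F i) (F j) →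
      ∃ π, 1 / 2 + δ ≤ ∑ ω, p ω * ind ((t ω π).run (fun c => (B ω c).run F) = true ∧
        (t ω π).cost (fun c => (B ω c).run F) ≤ T))
    (hsound : ∀ F : Fin k → Finset (Fin n), ∑ l, (F l).card ≤ N → ¬ Disjoint (F i) (F j) →
      ∀ π, ∑ ω, p ω * ind ((t ω π).run (fun c => (B ω c).run F) = true ∧
        (t ω π).cost (fun c => (B ω c).run F) ≤ T) ≤ 1 / 2 - δ)
    (hK3 : (1 - 2 * δ ^ 2) ^ K ≤ 1 / 4)
    (hK4 : W * ((1 - 2 * δ ^ 2) ^ K + 3 / 10000 * (1 / 2 : ℝ) ^ K) ≤ 1 / 1000) :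
    (1 / 5 : ℝ) ≤ EE (1 / (m : ℝ)) k n (fun G =>
      ∑ ω : Fin K → Ω, (∏ l, p (ω l)) * ind (own b (BB B ω) (fm G) i j ≠ ∅)) := by
  classical
  have hm12 : 1200 ≤ m := le_trans (by omega) hm
  have hm' : (1200 : ℝ) ≤ m := by exact_mod_cast hm12
  have hinv0 : 0 < 1 / (m : ℝ) := by positivity
  have hr1 : 0 ≤ 1 - 1 / (m : ℝ) := by
    have : 1 / (m : ℝ) ≤ 1 := by
      rw [div_le_one (by linarith)]; linarith
    linarith
  let P : (Fin K → Ω) → ℝ := fun ω => ∏ l, p (ω l)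
  have hP0 : ∀ ω, 0 ≤ P ω := fun ω => Finset.prod_nonneg fun l _ => hp0 _
  have hP1 : ∑ ω, P ω = 1 := total p hp1 K
  obtain ⟨η, hη⟩ : ∃ η : ℝ, η = (1 - 2 * δ ^ 2) ^ K := ⟨_, rfl⟩
  obtain ⟨ν, hν⟩ : ∃ ν : ℝ, ν = 3 / 10000 * (1 / 2 : ℝ) ^ K := ⟨_, rfl⟩
  have hη0 : 0 ≤ η := by
    rw [hη]
    apply pow_nonneg
    nlinarith
  have hν0 : 0 ≤ ν := by rw [hν]; positivity
  let tt : (Fin K → Ω) → Fin W → QTree (K * s) (Fin (2 ^ w)) Bool := fun ω π =>
    ampQ T K fun l => t (ω l) π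
  let acc : (Fin K → Ω) → Fin W → (Fin k → Fin n → Bool) → Prop := fun ω π G =>
    AccF b (BB B ω) (tt ω π) (fm G) i j
  let ent : (Fin K → Ω) → (Fin k → Fin n → Bool) → Prop := fun ω G =>
    own b (BB B ω) (fm G) i j ≠ ∅
  let h : Fin W → (Fin k → Fin n → Bool) → ℝ := fun π G => ∑ ω, P ω * ind (acc ω π G)
  let D : (Fin k → Fin n → Bool) → ℝ := fun G => ind (conj (G i) (G j) = zero n)
  let E : (Fin k → Fin n → Bool) → ℝ := fun G => ∑ ω, P ω * ind (ent ω G)
  let Bd : (Fin k → Fin n → Bool) → ℝ := fun G => ind (N < ∑ l, (fm G l).card)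
  have hh0 : ∀ π G, 0 ≤ h π G := fun π G =>
    Finset.sum_nonneg fun ω _ => mul_nonneg (hP0 ω) (ind_nonneg _)
  have hE0 : ∀ G, 0 ≤ E G := fun G =>
    Finset.sum_nonneg fun ω _ => mul_nonneg (hP0 ω) (ind_nonneg _)
  -- the size of the error sets
  have hBd : EE (1 / (m : ℝ)) k n Bd ≤ (1 / 2) ^ m := large (by omega) hn hk hN
  have hBd2 : (1 / 2 : ℝ) ^ m ≤ (1 / 2) ^ K * (1 / 1000000) := by
    calc (1 / 2 : ℝ) ^ m ≤ (1 / 2) ^ (K + 20) :=
          pow_le_pow_of_le_one (by norm_num) (by norm_num) (by omega)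
      _ = (1 / 2) ^ K * (1 / 2) ^ 20 := pow_add _ _ _
      _ ≤ _ := mul_le_mul_of_nonneg_left (by norm_num) (by positivity)
  have hK1 : (1 / 2 : ℝ) ^ K ≤ 1 := pow_le_one₀ (by norm_num) (by norm_num)
  -- corruption
  have hcor : ∀ ω π, EE (1 / (m : ℝ)) k n (fun G => ind (acc ω π G) * D G) ≤
      9634 / 10000 * EE (1 / (m : ℝ)) k n (fun G => ind (acc ω π G)) + ν := by
    intro ω π
    rw [EE_resample i j, EE_resample i j (fun G => ind (acc ω π G)), ← EE_mul]
    rw [← EE_const (r := 1 / (m : ℝ)) (K := k) (n := n) ν, ← EE_add]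
    apply EE_mono hinv0.le hr1
    intro G
    have h1 := pair_cor (a := K) (T := K * T) hb hwb hm hn (BB B ω) (tt ω π)
      (fun mem => ampQ_cost _ _ _ _) hij G
    have e1 : ∀ x y, ind (acc ω π (upd G i j x y)) * D (upd G i j x y) =
        ind (AccF b (BB B ω) (tt ω π) (fam G i j x y) i j) * ind (conj x y = zero n) := by
      intro x y
      simp only [acc, D, fm_upd]
      rw [upd_left G hij, upd_right G]
    have e2 : ∀ x y, ind (acc ω π (upd G i j x y)) =
        ind (AccF b (BB B ω) (tt ω π) (fam G i j x y) i j) := by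
      intro x y
      simp only [acc, fm_upd]
    simp only [e1]
    simp only [e2]
    rw [hν]
    exact h1
  have hcor' : ∀ π, EE (1 / (m : ℝ)) k n (fun G => h π G * D G) ≤
      9634 / 10000 * EE (1 / (m : ℝ)) k n (h π) + ν := by
    intro π
    have e1 : EE (1 / (m : ℝ)) k n (fun G => h π G * D G) =
        ∑ ω, P ω * EE (1 / (m : ℝ)) k n (fun G => ind (acc ω π G) * D G) := by
      rw [← Finset.sum_congr rfl fun ω _ => EE_mul _ _, ← EE_sum]
      congr 1
      funext G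
      simp only [h, Finset.sum_mul]
      refine Finset.sum_congr rfl fun ω _ => ?_
      ring
    have e2 : EE (1 / (m : ℝ)) k n (h π) =
        ∑ ω, P ω * EE (1 / (m : ℝ)) k n (fun G => ind (acc ω π G)) := by
      rw [← Finset.sum_congr rfl fun ω _ => EE_mul _ _, ← EE_sum]
    rw [e1, e2, Finset.mul_sum]
    have h2 : ∀ ω, P ω * EE (1 / (m : ℝ)) k n (fun G => ind (acc ω π G) * D G) ≤
        9634 / 10000 * (P ω * EE (1 / (m : ℝ)) k n (fun G => ind (acc ω π G))) + P ω * ν := by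
      intro ω
      have := mul_le_mul_of_nonneg_left (hcor ω π) (hP0 ω)
      linarith
    refine (Finset.sum_le_sum fun ω _ => h2 ω).trans (le_of_eq ?_)
    rw [Finset.sum_add_distrib, ← Finset.sum_mul, hP1, one_mul]
  -- the votes
  have hle : ∀ π G, h π G ≤ ∑ ω, P ω * ind ((K : ℝ) < 2 * ∑ l,
      ind ((t (ω l) π).run (fun c => (B (ω l) c).run (fm G)) = true ∧
        (t (ω l) π).cost (fun c => (B (ω l) c).run (fm G)) ≤ T)) := by
    intro π G
    refine Finset.sum_le_sum fun ω _ => mul_le_mul_of_nonneg_left (ind_mono fun h1 => ?_) (hP0 ω)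
    exact (vote_iff B (fun ω => t ω π) ω (fm G)).1 h1.2
  have hge : ∀ π G, ∑ ω, P ω * ind ((K : ℝ) < 2 * ∑ l,
      ind ((t (ω l) π).run (fun c => (B (ω l) c).run (fm G)) = true ∧
        (t (ω l) π).cost (fun c => (B (ω l) c).run (fm G)) ≤ T)) - E G ≤ h π G := by
    intro π G
    rw [sub_le_iff_le_add]
    simp only [h, E]
    rw [← Finset.sum_add_distrib]
    refine Finset.sum_le_sum fun ω _ => ?_
    rw [← mul_add]
    apply mul_le_mul_of_nonneg_left _ (hP0 ω)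
    have i1 := ind_nonneg (acc ω π G)
    have i2 := ind_nonneg (ent ω G)
    by_cases h1 : ent ω G
    · rw [ind_true h1]
      have := ind_le_one ((K : ℝ) < 2 * ∑ l,
        ind ((t (ω l) π).run (fun c => (B (ω l) c).run (fm G)) = true ∧
        (t (ω l) π).cost (fun c => (B (ω l) c).run (fm G)) ≤ T))
      linarith
    · by_cases h2 : (K : ℝ) < 2 * ∑ l,
        ind ((t (ω l) π).run (fun c => (B (ω l) c).run (fm G)) = true ∧
        (t (ω l) π).cost (fun c => (B (ω l) c).run (fm G)) ≤ T)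
      · rw [ind_true h2, ind_true]
        · linarith
        · refine ⟨bad_eq_zero _ _ ?_ _, (vote_iff B (fun ω => t ω π) ω (fm G)).2 h2⟩
          intro c hc
          apply h1
          simp only [ent]
          exact Finset.nonempty_iff_ne_empty.1 ⟨c, hc⟩
      · rw [ind_false h2]
        linarith
  have hdisj : ∀ G : Fin k → Fin n → Bool, Disjoint (fm G i) (fm G j) ↔
      conj (G i) (G j) = zero n := fun G => disjoint_iff _ _
  have hh1 : ∀ π G, h π G ≤ 1 := by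
    intro π G
    rw [← hP1]
    exact Finset.sum_le_sum fun ω _ => mul_le_of_le_one_right (hP0 ω) (ind_le_one _)
  obtain ⟨A, hA⟩ : ∃ A, A = ∑ π, EE (1 / (m : ℝ)) k n (fun G => h π G * D G) := ⟨_, rfl⟩
  obtain ⟨bd, hbd⟩ : ∃ bd, bd = EE (1 / (m : ℝ)) k n Bd := ⟨_, rfl⟩
  have hbd0 : 0 ≤ bd := by
    rw [hbd, ← EE_const (r := 1 / (m : ℝ)) (K := k) (n := n) 0]
    exact EE_mono hinv0.le hr1 fun G => ind_nonneg _
  have h1 : A ≤ 9634 / 10000 * (A + W * (η + bd)) + W * ν := by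
    have h2 : ∀ π, EE (1 / (m : ℝ)) k n (h π) ≤
        EE (1 / (m : ℝ)) k n (fun G => h π G * D G) + (η + bd) := by
      intro π
      rw [hbd, ← EE_const (r := 1 / (m : ℝ)) (K := k) (n := n) η, ← EE_add, ← EE_add]
      apply EE_mono hinv0.le hr1
      intro G
      have i1 : 0 ≤ Bd G := ind_nonneg _
      by_cases hd : conj (G i) (G j) = zero n
      · have : D G = 1 := ind_true hd
        rw [this, mul_one]
        linarith
      · have : D G = 0 := ind_false hd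
        rw [this, mul_zero, zero_add]
        by_cases hs : N < ∑ l, (fm G l).card
        · have : Bd G = 1 := ind_true hs
          rw [this]
          have := hh1 π G
          linarith
        · have h3 := boost1 p hp0 hp1 _ hδ (hsound (fm G) (not_lt.1 hs)
            (fun h0 => hd ((hdisj G).1 h0)) π) K
          have h4 := (hle π G).trans h3
          rw [← hη] at h4
          linarith
    have h3 : A ≤ ∑ π : Fin W, (9634 / 10000 * (EE (1 / (m : ℝ)) k n
        (fun G => h π G * D G) + (η + bd)) + ν) := by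
      rw [hA]
      refine Finset.sum_le_sum fun π _ => (hcor' π).trans ?_
      have := h2 π
      linarith
    refine h3.trans (le_of_eq ?_)
    rw [Finset.sum_add_distrib, ← Finset.mul_sum, Finset.sum_add_distrib, ← hA]
    simp
    ring
  have h2 : 3 / 4 * (366 / 1000 : ℝ) ≤ A + bd + EE (1 / (m : ℝ)) k n E := by
    have h4 : (366 / 1000 : ℝ) ≤ EE (1 / (m : ℝ)) k n D := by
      rw [EE_resample i j, ← EE_const (r := 1 / (m : ℝ)) (K := k) (n := n) (366 / 1000)]
      apply EE_mono hinv0.le hr1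
      intro G
      have e1 : ∀ x y, D (upd G i j x y) = ind (conj x y = zero n) := by
        intro x y
        simp only [D]
        rw [upd_left G hij, upd_right G]
      simp only [e1]
      rw [ex2_disj, hn]
      exact disj_ge hm12
    have h5 : EE (1 / (m : ℝ)) k n (fun G => 3 / 4 * D G) ≤ A + bd + EE (1 / (m : ℝ)) k n E := by
      rw [hA, hbd, ← EE_sum, ← EE_add, ← EE_add]
      apply EE_mono hinv0.le hr1
      intro G
      rw [← Finset.sum_mul]
      have i1 : 0 ≤ Bd G := ind_nonneg _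
      have i2 := hE0 G
      by_cases hd : conj (G i) (G j) = zero n
      · have hD1 : D G = 1 := ind_true hd
        rw [hD1, mul_one, mul_one]
        by_cases hs : N < ∑ l, (fm G l).card
        · have : Bd G = 1 := ind_true hs
          rw [this]
          have : 0 ≤ ∑ π, h π G := Finset.sum_nonneg fun π _ => hh0 π G
          linarith
        · obtain ⟨π, hπ⟩ := hcomp (fm G) (not_lt.1 hs) ((hdisj G).2 hd)
          have h6 := boost2 p hp0 hp1 _ hδ hπ K
          have h7 := hge π G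
          have h8 := Finset.single_le_sum (f := fun π => h π G) (fun π _ => hh0 π G)
            (Finset.mem_univ π)
          simp only [P] at h7
          linarith
      · have : D G = 0 := ind_false hd
        rw [this, mul_zero, mul_zero]
        linarith
    rw [EE_mul] at h5
    linarith
  have hW0 : (0 : ℝ) ≤ W := Nat.cast_nonneg _
  rw [← hη, ← hν] at hK4
  have hb1 : bd ≤ (1 / 2) ^ K * (1 / 1000000) := by rw [hbd]; exact hBd.trans hBd2
  have hb2 : bd ≤ 1 / 1000000 := by linarith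
  have hb3 : W * bd ≤ 1 / 100000 := by
    have h3 : W * ν ≤ 1 / 1000 := by
      have : 0 ≤ W * η := mul_nonneg hW0 hη0
      rw [mul_add] at hK4
      linarith
    have h4 : W * bd ≤ W * (ν * (1 / 100)) := by
      apply mul_le_mul_of_nonneg_left _ hW0
      rw [hν]
      have : (0 : ℝ) ≤ (1 / 2) ^ K := by positivity
      linarith
    linarith
  have hηW : 0 ≤ W * η := mul_nonneg hW0 hη0
  rw [mul_add] at hK4 h1
  rw [mul_add] at h1
  have hEE : EE (1 / (m : ℝ)) k n E = EE (1 / (m : ℝ)) k n (fun G =>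
      ∑ ω : Fin K → Ω, (∏ l, p (ω l)) * ind (own b (BB B ω) (fm G) i j ≠ ∅)) := rfl
  rw [← hEE]
  linarith

/-- **All pairs.** -/
theorem average (hb : 1 ≤ b) (hwb : w ≤ b)
    (hm : 100 * (3 * b * (K * T) + 12 + K) ≤ m) (hn : n = m ^ 2) (hk : 1 ≤ k)
    (hN : 400 * (k * m) ≤ N)
    {Ω : Type} [Fintype Ω] (p : Ω → ℝ) (hp0 : ∀ ω, 0 ≤ p ω) (hp1 : ∑ ω, p ω = 1)
    (B : Ω → Fin s → Board k (Finset (Fin n)) (Fin (2 ^ w))) (I : Finset (Fin k × Fin k))
    (hI : ∀ e ∈ I, e.1 ≠ e.2) {δ : ℝ} (hδ : 0 < δ) (hδ2 : δ ≤ 1 / 2)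
    (hgood : ∀ e ∈ I, ∃ t : Ω → Fin W → QTree s (Fin (2 ^ w)) Bool,
      (∀ F : Fin k → Finset (Fin n), ∑ l, (F l).card ≤ N → Disjoint (F e.1) (F e.2) →
        ∃ π, 1 / 2 + δ ≤ ∑ ω, p ω * ind ((t ω π).run (fun c => (B ω c).run F) = true ∧
          (t ω π).cost (fun c => (B ω c).run F) ≤ T)) ∧
      (∀ F : Fin k → Finset (Fin n), ∑ l, (F l).card ≤ N → ¬ Disjoint (F e.1) (F e.2) →
        ∀ π, ∑ ω, p ω * ind ((t ω π).run (fun c => (B ω c).run F) = true ∧
          (t ω π).cost (fun c => (B ω c).run F) ≤ T) ≤ 1 / 2 - δ))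
    (hK3 : (1 - 2 * δ ^ 2) ^ K ≤ 1 / 4)
    (hK4 : W * ((1 - 2 * δ ^ 2) ^ K + 3 / 10000 * (1 / 2 : ℝ) ^ K) ≤ 1 / 1000)
    (R : ℝ) (hR : ∀ F : Fin k → Finset (Fin n), ∑ l, (F l).card ≤ N →
      ∑ ω, p ω * ∑ e ∈ I, ((own b (B ω) F e.1 e.2).card : ℝ) ≤ R) :
    (I.card : ℝ) ≤ 6 * (K * R) := by
  classical
  have hm12 : 1200 ≤ m := le_trans (by omega) hm
  have hm' : (1200 : ℝ) ≤ m := by exact_mod_cast hm12
  have hinv0 : 0 < 1 / (m : ℝ) := by positivity
  have hr1 : 0 ≤ 1 - 1 / (m : ℝ) := by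
    have : 1 / (m : ℝ) ≤ 1 := by
      rw [div_le_one (by linarith)]; linarith
    linarith
  have hR0 : 0 ≤ R := by
    refine le_trans ?_ (hR (fun _ => ∅) (by simp))
    exact Finset.sum_nonneg fun ω _ => mul_nonneg (hp0 ω)
      (Finset.sum_nonneg fun e _ => Nat.cast_nonneg _)
  let P : (Fin K → Ω) → ℝ := fun ω => ∏ l, p (ω l)
  have hP0 : ∀ ω, 0 ≤ P ω := fun ω => Finset.prod_nonneg fun l _ => hp0 _
  have hP1 : ∑ ω, P ω = 1 := total p hp1 K
  have hpair : ∀ e ∈ I, (1 / 5 : ℝ) ≤ EE (1 / (m : ℝ)) k n (fun G =>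
      ∑ ω, P ω * ind (own b (BB B ω) (fm G) e.1 e.2 ≠ ∅)) := by
    intro e he
    obtain ⟨t, ht1, ht2⟩ := hgood e he
    exact one_pair hb hwb hm hn hk hN p hp0 hp1 B (hI e he) hδ hδ2 t ht1 ht2 hK3 hK4
  have h1 := Finset.card_nsmul_le_sum _ _ _ hpair
  rw [nsmul_eq_mul, ← EE_sum] at h1
  have h2 : EE (1 / (m : ℝ)) k n (fun G => ∑ e ∈ I, ∑ ω, P ω *
      ind (own b (BB B ω) (fm G) e.1 e.2 ≠ ∅)) ≤
      EE (1 / (m : ℝ)) k n (fun G => K * R + I.card * ind (N < ∑ l, (fm G l).card)) := by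
    apply EE_mono hinv0.le hr1
    intro G
    rw [Finset.sum_comm]
    have h3 : ∀ ω : Fin K → Ω, ∑ e ∈ I, P ω * ind (own b (BB B ω) (fm G) e.1 e.2 ≠ ∅) =
        P ω * ∑ e ∈ I, ind (own b (BB B ω) (fm G) e.1 e.2 ≠ ∅) :=
      fun ω => (Finset.mul_sum _ _ _).symm
    simp only [h3]
    by_cases h6 : N < ∑ l, (fm G l).card
    · rw [ind_true h6, mul_one]
      calc _ ≤ ∑ ω, P ω * (I.card : ℝ) := by
            apply Finset.sum_le_sum
            intro ω _
            apply mul_le_mul_of_nonneg_left _ (hP0 ω)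
            calc _ ≤ ∑ _e ∈ I, (1 : ℝ) := Finset.sum_le_sum fun e _ => ind_le_one _
              _ = _ := by simp
        _ = I.card := by rw [← Finset.sum_mul, hP1, one_mul]
        _ ≤ _ := by
            have : 0 ≤ (K : ℝ) * R := by positivity
            linarith
    · rw [ind_false h6, mul_zero, add_zero]
      have h7 : ∀ ω : Fin K → Ω, ∑ e ∈ I, ind (own b (BB B ω) (fm G) e.1 e.2 ≠ ∅) ≤
          ∑ l, ∑ e ∈ I, ((own b (B (ω l)) (fm G) e.1 e.2).card : ℝ) := by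
        intro ω
        rw [Finset.sum_comm]
        refine Finset.sum_le_sum fun e _ => ?_
        have e1 : ∑ l, ((own b (B (ω l)) (fm G) e.1 e.2).card : ℝ) =
            ((own b (BB B ω) (fm G) e.1 e.2).card : ℝ) := by
          rw [own_BB]
          push_cast
          rfl
        rw [e1]
        by_cases h7 : own b (BB B ω) (fm G) e.1 e.2 = ∅
        · rw [ind_false (not_not.2 h7)]
          exact Nat.cast_nonneg _
        · rw [ind_true h7]
          exact_mod_cast Finset.card_pos.2 (Finset.nonempty_iff_ne_empty.2 h7)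
      calc _ ≤ ∑ ω, P ω * ∑ l, ∑ e ∈ I, ((own b (B (ω l)) (fm G) e.1 e.2).card : ℝ) :=
            Finset.sum_le_sum fun ω _ => mul_le_mul_of_nonneg_left (h7 ω) (hP0 ω)
        _ = ∑ l : Fin K, ∑ ω : Fin K → Ω, P ω *
              ∑ e ∈ I, ((own b (B (ω l)) (fm G) e.1 e.2).card : ℝ) := by
            rw [Finset.sum_comm]
            refine Finset.sum_congr rfl fun ω _ => ?_
            rw [Finset.mul_sum]
        _ = ∑ _l : Fin K, ∑ ω, p ω * ∑ e ∈ I, ((own b (B ω) (fm G) e.1 e.2).card : ℝ) := by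
            refine Finset.sum_congr rfl fun l _ => ?_
            exact marginal p hp1 l fun ω => ∑ e ∈ I, ((own b (B ω) (fm G) e.1 e.2).card : ℝ)
        _ ≤ ∑ _l : Fin K, R := Finset.sum_le_sum fun l _ => hR (fm G) (not_lt.1 h6)
        _ = _ := by simp
  rw [EE_add, EE_const, EE_mul] at h2
  have h3 := large (m := m) (n := n) (K := k) (by omega) hn hk hN
  have h4 : (1 / 2 : ℝ) ^ m ≤ 1 / 1000000 := by
    calc (1 / 2 : ℝ) ^ m ≤ (1 / 2) ^ 20 :=
          pow_le_pow_of_le_one (by norm_num) (by norm_num) (by omega)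
      _ ≤ _ := by norm_num
  have h5 : (I.card : ℝ) * EE (1 / (m : ℝ)) k n (fun G => ind (N < ∑ l, (fm G l).card)) ≤
      I.card * (1 / 1000000) :=
    mul_le_mul_of_nonneg_left (h3.trans h4) (Nat.cast_nonneg _)
  have h6 : 0 ≤ (K : ℝ) * R := by positivity
  linarith

end Pool.Agent.Run7.h412.EC
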