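import Pool.Agent.TH457.EntD.TSIDefs

set_option autoImplicit false

/-!
# Data structures with proofs for 3SUM-Indexing and entangled blocks: definitions
-/

namespace Pool.Agent.Run7.h412.EC.TSI

open Pool.Agent.W959.Ent
open Pool.Agent.TH457.EntD.TSI (arr1 arr2)

/-- A data structure with a verification of proofs: a memory of `s` cells of `w` bits, and for each of
the `W` possible proofs and each number `z` an adaptive procedure which checks the proof of the claim
that `z` is not a sum; its output `true` means that it is convinced. The contents of the cell `c` is
given by a blackboard protocol `cell c` of arbitrary length with one player for each block of one of the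
two arrays (every function of the two arrays is the result of such a protocol). -/
structure DS (k u w s W : ℕ) where
  cell : Fin s → Board (k + k) (Finset (Fin u)) (Fin (2 ^ w))
  verify : Fin W → ℕ → QTree s (Fin (2 ^ w)) Bool

variable {k u w s W : ℕ}

/-- the memory for the arrays given by `F` -/
def DS.mem (D : DS k u w s W) (F : Fin (k + k) → Finset (Fin u)) : Fin s → Fin (2 ^ w) :=
  fun c => (D.cell c).run F

/-- The proof `π` of the claim that `z` is not a sum is accepted, and at most `T` cells are read. -/
def DS.Accepts (D : DS k u w s W) (T : ℕ) (F : Fin (k + k) → Finset (Fin u)) (z : ℕ)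
    (π : Fin W) : Prop :=
  (D.verify π z).run (D.mem F) = true ∧ (D.verify π z).cost (D.mem F) ≤ T

open Classical in
/-- The random data structure `D` (with probabilities `p`) verifies the negative answers of
3SUM-Indexing with `T` probes for arrays with together at most `n` elements: if `z` is not the sum of
an element of the first array and an element of the second array then some proof is accepted with
probability at least `1 / 2 + δ`, and if `z` is such a sum then every proof is accepted with
probability at most `1 / 2 - δ`. The proof may depend on the arrays and on `z`, but not on the random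
choice. -/
def Verifies {Ω : Type} [Fintype Ω] (p : Ω → ℝ) (D : Ω → DS k u w s W) (T n : ℕ) (δ : ℝ) : Prop :=
  (∀ ω, 0 ≤ p ω) ∧ ∑ ω, p ω = 1 ∧
    ∀ F : Fin (k + k) → Finset (Fin u), ∑ l, (F l).card ≤ n → ∀ z : ℕ,
      ((¬ ∃ a ∈ arr1 F, ∃ a' ∈ arr2 F, a + a' = z) →
        ∃ π, 1 / 2 + δ ≤ ∑ ω with (D ω).Accepts T F z π, p ω) ∧
      ((∃ a ∈ arr1 F, ∃ a' ∈ arr2 F, a + a' = z) →
        ∀ π, ∑ ω with (D ω).Accepts T F z π, p ω ≤ 1 / 2 - δ)

/-- The pairs entangled by the cell `c`: the pairs `(i, j)` such that in the computation of the
contents of `c` both the block `i` of the first array and the block `j` of the second array write on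
the blackboard, and together they write more than `b` bits. -/
def DS.entangled (D : DS k u w s W) (b : ℕ) (F : Fin (k + k) → Finset (Fin u)) (c : Fin s) :
    Finset (Fin k × Fin k) :=
  Finset.univ.filter fun e => 0 < (D.cell c).bits F (Fin.castAdd k e.1) ∧
    0 < (D.cell c).bits F (Fin.natAdd k e.2) ∧
    b < (D.cell c).bits F (Fin.castAdd k e.1) + (D.cell c).bits F (Fin.natAdd k e.2)

end Pool.Agent.Run7.h412.EC.TSI
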