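import Pool.Agent.TH457.EntD.TSI
import Pool.Agent.Run7.h412.EC.Average
import Pool.Agent.Run7.h412.EC.TSIDefs

set_option autoImplicit false

/-!
# 3SUM-Indexing: the total entanglement of a data structure with proofs
-/

namespace Pool.Agent.Run7.h412.EC

open Pool.Agent.W959 Pool.Agent.W959.Ent Pool.Agent.TH457.EntD
open Pool.Agent.Run7.h412.MA (choose_K)

theorem sum_filter_ind {Ω : Type} [Fintype Ω] (p : Ω → ℝ) (P : Ω → Prop) [DecidablePred P] :
    ∑ ω with P ω, p ω = ∑ ω, p ω * ind (P ω) := by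
  rw [Finset.sum_filter]
  refine Finset.sum_congr rfl fun ω _ => ?_
  by_cases h : P ω
  · rw [if_pos h, ind_true h, mul_one]
  · rw [if_neg h, ind_false h, mul_zero]

namespace TSI

/-- **Main theorem.** -/
theorem main (n w b T W : ℕ) (hb : 1 ≤ b) (hwb : w ≤ b) (hT : 1 ≤ T) (δ : ℝ) (hδ : 0 < δ)
    (hδ2 : δ ≤ 1 / 2) (hn : 10 ^ 7 * (b * T) * ((Nat.log 2 W : ℝ) + 1) ≤ δ ^ 2 * n) :
    ∃ k u : ℕ, δ ^ 2 * ((k : ℝ) * u) ≤ 14 * (b * T) * ((Nat.log 2 W : ℝ) + 1) * n ∧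
      2 * u * k * k ≤ n ^ 2 ∧
      ∀ (s : ℕ) (Ω : Type) [Fintype Ω] (p : Ω → ℝ) (D : Ω → DS k u w s W), Verifies p D T n δ →
        ∀ R : ℝ, (∀ F : Fin (k + k) → Finset (Fin u), ∑ l, (F l).card ≤ n →
          ∑ ω, p ω * ∑ c, (((D ω).entangled b F c).card : ℝ) ≤ R) →
        δ ^ 6 * (n : ℝ) ^ 2 ≤ 10 ^ 17 * (b * T) ^ 2 * ((Nat.log 2 W : ℝ) + 1) ^ 3 * R := by
  classical
  obtain ⟨K, hK1, hK2, hK3, hK4⟩ := choose_K (W := W) hδ hδ2
  obtain ⟨ℓ, hℓ⟩ : ∃ ℓ, ℓ = (Nat.log 2 W : ℝ) + 1 := ⟨_, rfl⟩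
  rw [← hℓ] at hK2 hn ⊢
  obtain ⟨m, hm⟩ : ∃ m, m = 100 * (3 * b * (K * T) + 12 + K) := ⟨_, rfl⟩
  obtain ⟨u, hu⟩ : ∃ u, u = m ^ 2 := ⟨_, rfl⟩
  obtain ⟨k, hk⟩ : ∃ k, k = n / (800 * m) := ⟨_, rfl⟩
  have hδ3 : 0 < δ ^ 2 := by positivity
  have hbT : 1 ≤ b * T := Nat.mul_pos hb hT
  have hm2 : m ≤ 1600 * (K * (b * T)) := by
    rw [hm]
    have h1 : 3 * b * (K * T) = 3 * (K * (b * T)) := by ring
    have h2 : K ≤ K * (b * T) := Nat.le_mul_of_pos_right _ hbT
    omega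
  have hm2' : (m : ℝ) ≤ 1600 * (K * (b * T)) := by exact_mod_cast hm2
  have hm0 : 1200 ≤ m := by omega
  have hbT0 : (0 : ℝ) ≤ b * T := by positivity
  have hδm : δ ^ 2 * m ≤ 11200 * (b * T) * ℓ := by
    calc δ ^ 2 * (m : ℝ) ≤ δ ^ 2 * (1600 * (K * (b * T))) :=
          mul_le_mul_of_nonneg_left hm2' hδ3.le
      _ = 1600 * (b * T) * (δ ^ 2 * K) := by ring
      _ ≤ 1600 * (b * T) * (7 * ℓ) := mul_le_mul_of_nonneg_left hK2 (by positivity)
      _ = _ := by ring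
  have hℓ1 : 1 ≤ ℓ := by
    rw [hℓ]
    have : (0 : ℝ) ≤ Nat.log 2 W := Nat.cast_nonneg _
    linarith
  have hmn : 800 * m ≤ n := by
    have h1 : δ ^ 2 * (800 * (m : ℝ)) ≤ δ ^ 2 * n := by
      calc δ ^ 2 * (800 * (m : ℝ)) = 800 * (δ ^ 2 * m) := by ring
        _ ≤ 800 * (11200 * (b * T) * ℓ) := mul_le_mul_of_nonneg_left hδm (by norm_num)
        _ = 8960000 * (b * T) * ℓ := by ring
        _ ≤ 10 ^ 7 * (b * T) * ℓ := by
            apply mul_le_mul_of_nonneg_right _ (by linarith)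
            apply mul_le_mul_of_nonneg_right (by norm_num) hbT0
        _ ≤ _ := hn
    have h2 : 800 * (m : ℝ) ≤ n := le_of_mul_le_mul_left h1 hδ3
    exact_mod_cast h2
  have hkm : k * (800 * m) ≤ n := by rw [hk]; exact Nat.div_mul_le_self n _
  have hk1 : 1 ≤ k := by rw [hk]; exact (Nat.one_le_div_iff (by omega)).2 hmn
  have hkm' : (k : ℝ) * (800 * m) ≤ n := by exact_mod_cast hkm
  refine ⟨k, u, ?_, ?_, ?_⟩
  · rw [hu]
    push_cast
    have h1 : 800 * (δ ^ 2 * ((k : ℝ) * m ^ 2)) ≤ n * (11200 * (b * T) * ℓ) := by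
      calc 800 * (δ ^ 2 * ((k : ℝ) * m ^ 2)) = (k * (800 * m)) * (δ ^ 2 * m) := by ring
        _ ≤ n * (11200 * (b * T) * ℓ) :=
          mul_le_mul hkm' hδm (by positivity) (Nat.cast_nonneg _)
    have h2 : n * (11200 * (b * T) * ℓ) = 800 * (14 * (b * T) * ℓ * n) := by ring
    linarith
  · rw [hu]
    have h1 : (k * (800 * m)) ^ 2 ≤ n ^ 2 := Nat.pow_le_pow_left hkm 2
    have h2 : (k * (800 * m)) ^ 2 = 320000 * (2 * m ^ 2 * k * k) := by ring
    omega
  intro s Ω _ p D hD R hR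
  obtain ⟨hp0, hp1, hgood⟩ := hD
  let I : Finset (Fin (k + k) × Fin (k + k)) :=
    Finset.univ.map ⟨fun e : Fin k × Fin k => (Fin.castAdd k e.1, Fin.natAdd k e.2), by
      rintro ⟨a1, a2⟩ ⟨b1, b2⟩ h
      rw [Prod.mk.injEq] at h
      rw [Prod.mk.injEq]
      exact ⟨Fin.castAdd_injective k k h.1, Fin.natAdd_injective k k h.2⟩⟩
  have hcard : I.card = k * k := by
    simp [I]
  have h1 := average (T := T) (s := s) (N := n) (W := W) (K := K) hb hwb (le_of_eq hm.symm) hu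
    (show 1 ≤ k + k by omega)
    (by
      calc 400 * ((k + k) * m) = k * (800 * m) := by ring
        _ ≤ n := hkm) p hp0 hp1
    (fun ω c => (D ω).cell c) I
    (by
      intro e he
      simp only [I, Finset.mem_map, Finset.mem_univ, true_and] at he
      obtain ⟨⟨i, j⟩, rfl⟩ := he
      intro h
      have := congrArg Fin.val h
      simp at this
      omega) hδ hδ2
    (by
      intro e he
      simp only [I, Finset.mem_map, Finset.mem_univ, true_and] at he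
      obtain ⟨⟨i, j⟩, rfl⟩ := he
      refine ⟨fun ω π => (D ω).verify π (2 * u * (i + k * j) + (u - 1)), ?_, ?_⟩
      · intro F hF hd
        obtain ⟨π, hπ⟩ := (hgood F hF (2 * u * (i + k * j) + (u - 1))).1 (by
          rw [Pool.Agent.TH457.EntD.TSI.sum_iff]
          exact not_not.2 hd)
        refine ⟨π, hπ.trans (le_of_eq ?_)⟩
        exact @sum_filter_ind Ω _ p
          (fun ω => (D ω).Accepts T F (2 * u * (i + k * j) + (u - 1)) π)
          (fun _ => Classical.propDecidable _)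
      · intro F hF hd π
        have h2 := (hgood F hF (2 * u * (i + k * j) + (u - 1))).2 (by
          rw [Pool.Agent.TH457.EntD.TSI.sum_iff]
          exact hd) π
        refine le_trans (le_of_eq ?_) h2
        exact (@sum_filter_ind Ω _ p
          (fun ω => (D ω).Accepts T F (2 * u * (i + k * j) + (u - 1)) π)
          (fun _ => Classical.propDecidable _)).symm) hK3 (by
      have := hK4 1 le_rfl
      rwa [mul_one] at this) R
    (by
      intro F hF
      refine le_trans (le_of_eq ?_) (hR F hF)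
      apply Finset.sum_congr rfl
      intro ω _
      congr 1
      rw [Finset.sum_map]
      simp only [own, DS.entangled, Finset.card_filter, Nat.cast_sum, Nat.cast_ite, Nat.cast_one,
        Nat.cast_zero]
      rw [Finset.sum_comm]
      rfl)
  rw [hcard] at h1
  have h2 : n ≤ 1600 * (m * k) := by
    have h3 : n < 800 * m * (k + 1) := by rw [hk]; exact Nat.lt_mul_div_succ n (by omega)
    have h5 : 800 * m ≤ 800 * m * k := Nat.le_mul_of_pos_right _ hk1
    have h6 : 800 * m * (k + 1) = 800 * m * k + 800 * m := by ring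
    have h7 : 1600 * (m * k) = 800 * m * k + 800 * m * k := by ring
    omega
  have h3 : (n : ℝ) ≤ 1600 * (m * k) := by exact_mod_cast h2
  have hn0 : (0 : ℝ) ≤ n := Nat.cast_nonneg n
  have h4 : (n : ℝ) ^ 2 ≤ (1600 * (m * k)) ^ 2 := pow_le_pow_left₀ hn0 h3 2
  have h6 : (m : ℝ) ^ 2 ≤ (1600 * (K * (b * T))) ^ 2 :=
    pow_le_pow_left₀ (Nat.cast_nonneg m) hm2' 2
  have hK0 : (1 : ℝ) ≤ K := by exact_mod_cast hK1
  push_cast at h1
  have hKR : 0 ≤ (K : ℝ) * R := by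
    have : (0 : ℝ) ≤ (k : ℝ) * k := by positivity
    linarith
  have hR0 : 0 ≤ R := by
    by_contra h
    push Not at h
    have : (K : ℝ) * R < 0 := mul_neg_of_pos_of_neg (by linarith) h
    linarith
  have h7 : (δ ^ 2 * K) ^ 3 ≤ (7 * ℓ) ^ 3 := pow_le_pow_left₀ (by positivity) hK2 3
  have h8 : (n : ℝ) ^ 2 ≤ 39321600000000 * (K : ℝ) ^ 3 * ((b * T) ^ 2 * R) := by
    calc (n : ℝ) ^ 2 ≤ (1600 * (m * k)) ^ 2 := h4
      _ = 2560000 * (m : ℝ) ^ 2 * (k * k) := by ring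
      _ ≤ 2560000 * (m : ℝ) ^ 2 * (6 * (K * R)) := by
          apply mul_le_mul_of_nonneg_left h1
          positivity
      _ ≤ 2560000 * (1600 * (K * (b * T))) ^ 2 * (6 * (K * R)) := by
          apply mul_le_mul_of_nonneg_right _ (by positivity)
          linarith
      _ = _ := by ring
  calc δ ^ 6 * (n : ℝ) ^ 2 ≤ δ ^ 6 * (39321600000000 * (K : ℝ) ^ 3 * ((b * T) ^ 2 * R)) :=
        mul_le_mul_of_nonneg_left h8 (by positivity)
    _ = 39321600000000 * (δ ^ 2 * K) ^ 3 * ((b * T) ^ 2 * R) := by ring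
    _ ≤ 39321600000000 * (7 * ℓ) ^ 3 * ((b * T) ^ 2 * R) := by
        apply mul_le_mul_of_nonneg_right _ (by positivity)
        linarith
    _ = 13487308800000000 * (ℓ ^ 3 * ((b * T) ^ 2 * R)) := by ring
    _ ≤ 10 ^ 17 * (ℓ ^ 3 * ((b * T) ^ 2 * R)) := by
        apply mul_le_mul_of_nonneg_right (by norm_num)
        have : 0 ≤ ℓ ^ 3 := by positivity
        positivity
    _ = _ := by ring

end TSI

end Pool.Agent.Run7.h412.EC
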