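import Pool.Agent.W959.EntBoard

set_option autoImplicit false

/-!
# Data structures which verify that two sets of a family are disjoint: definitions
-/

namespace Pool.Agent.Run7.h412.EC.SI

open Pool.Agent.W959.Ent

/-- A data structure with a verification of proofs, for families of `k` subsets of a universe with `u`
elements: a memory of `s` cells of `w` bits, and for each of the `W` possible proofs and each pair of
indices an adaptive procedure which checks the proof of the claim that the two sets are disjoint; its
output `true` means that it is convinced. The contents of the cell `c` is given by a blackboard protocol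
`cell c` of arbitrary length with one player for each set of the family (every function of the family is
the result of such a protocol). -/
structure DS (k u w s W : ℕ) where
  cell : Fin s → Board k (Finset (Fin u)) (Fin (2 ^ w))
  verify : Fin W → Fin k → Fin k → QTree s (Fin (2 ^ w)) Bool

variable {k u w s W : ℕ}

/-- the memory for the family `F` -/
def DS.mem (D : DS k u w s W) (F : Fin k → Finset (Fin u)) : Fin s → Fin (2 ^ w) :=
  fun c => (D.cell c).run F

/-- The proof `π` of the claim that the sets number `i` and `j` are disjoint is accepted, and at most
`T` cells are read. -/
def DS.Accepts (D : DS k u w s W) (T : ℕ) (F : Fin k → Finset (Fin u)) (i j : Fin k)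
    (π : Fin W) : Prop :=
  (D.verify π i j).run (D.mem F) = true ∧ (D.verify π i j).cost (D.mem F) ≤ T

open Classical in
/-- The random data structure `D` (with probabilities `p`) verifies with `T` probes which sets are
disjoint, for families of total size at most `N`: for all such families and all `i < j`, if the sets
number `i` and `j` are disjoint then some proof is accepted with probability at least `1 / 2 + δ`, and if
they intersect then every proof is accepted with probability at most `1 / 2 - δ`. The proof may depend on
the family and on `i` and `j`, but not on the random choice. -/
def Verifies {Ω : Type} [Fintype Ω] (p : Ω → ℝ) (D : Ω → DS k u w s W) (T N : ℕ) (δ : ℝ) : Prop :=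
  (∀ ω, 0 ≤ p ω) ∧ ∑ ω, p ω = 1 ∧
    ∀ F : Fin k → Finset (Fin u), ∑ l, (F l).card ≤ N → ∀ i j : Fin k, i < j →
      (¬ (F i ∩ F j).Nonempty →
        ∃ π, 1 / 2 + δ ≤ ∑ ω with (D ω).Accepts T F i j π, p ω) ∧
      ((F i ∩ F j).Nonempty →
        ∀ π, ∑ ω with (D ω).Accepts T F i j π, p ω ≤ 1 / 2 - δ)

/-- The pairs entangled by the cell `c` on the family `F`: the pairs `i < j` such that in the
computation of the contents of `c` both the set `i` and the set `j` write on the blackboard, and
together they write more than `b` bits. -/
def DS.entangled (D : DS k u w s W) (b : ℕ) (F : Fin k → Finset (Fin u)) (c : Fin s) :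
    Finset (Fin k × Fin k) :=
  Finset.univ.filter fun e => e.1 < e.2 ∧ 0 < (D.cell c).bits F e.1 ∧
    0 < (D.cell c).bits F e.2 ∧ b < (D.cell c).bits F e.1 + (D.cell c).bits F e.2

end Pool.Agent.Run7.h412.EC.SI
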