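import Pool.Agent.TH457.EntD.SI
import Pool.Agent.Run7.h412.EC.TSI
import Pool.Agent.Run7.h412.EC.SIDefs

set_option autoImplicit false

/-!
# Verifying that two sets are disjoint: the total entanglement of a data structure with proofs
-/

namespace Pool.Agent.Run7.h412.EC.SI

open Pool.Agent.W959 Pool.Agent.W959.Ent Pool.Agent.TH457.EntD
open Pool.Agent.Run7.h412.MA (choose_K)

/-- **Main theorem.** -/
theorem main (N w b T W : ℕ) (hb : 1 ≤ b) (hwb : w ≤ b) (hT : 1 ≤ T) (δ : ℝ) (hδ : 0 < δ)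
    (hδ2 : δ ≤ 1 / 2) (hN : 10 ^ 7 * (b * T) * ((Nat.log 2 W : ℝ) + 1) ≤ δ ^ 2 * N) :
    ∃ k u : ℕ, δ ^ 4 * (u : ℝ) ≤ (11200 * (b * T) * ((Nat.log 2 W : ℝ) + 1)) ^ 2 ∧
      ∀ (s : ℕ) (Ω : Type) [Fintype Ω] (p : Ω → ℝ) (D : Ω → DS k u w s W), Verifies p D T N δ →
        ∀ R : ℝ, (∀ F : Fin k → Finset (Fin u), ∑ l, (F l).card ≤ N →
          ∑ ω, p ω * ∑ c, (((D ω).entangled b F c).card : ℝ) ≤ R) →
        δ ^ 6 * (N : ℝ) ^ 2 ≤ 10 ^ 17 * (b * T) ^ 2 * ((Nat.log 2 W : ℝ) + 1) ^ 3 * R := by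
  classical
  obtain ⟨K, hK1, hK2, hK3, hK4⟩ := choose_K (W := W) hδ hδ2
  obtain ⟨ℓ, hℓ⟩ : ∃ ℓ, ℓ = (Nat.log 2 W : ℝ) + 1 := ⟨_, rfl⟩
  rw [← hℓ] at hK2 hN ⊢
  obtain ⟨m, hm⟩ : ∃ m, m = 100 * (3 * b * (K * T) + 12 + K) := ⟨_, rfl⟩
  obtain ⟨u, hu⟩ : ∃ u, u = m ^ 2 := ⟨_, rfl⟩
  obtain ⟨k, hk⟩ : ∃ k, k = N / (400 * m) := ⟨_, rfl⟩
  have hδ3 : 0 < δ ^ 2 := by positivity
  have hbT : 1 ≤ b * T := Nat.mul_pos hb hT
  have hm2 : m ≤ 1600 * (K * (b * T)) := by
    rw [hm]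
    have h1 : 3 * b * (K * T) = 3 * (K * (b * T)) := by ring
    have h2 : K ≤ K * (b * T) := Nat.le_mul_of_pos_right _ hbT
    omega
  have hm2' : (m : ℝ) ≤ 1600 * (K * (b * T)) := by exact_mod_cast hm2
  have hm0 : 1200 ≤ m := by omega
  have hbT0 : (0 : ℝ) ≤ b * T := by positivity
  have hδm : δ ^ 2 * m ≤ 11200 * (b * T) * ℓ := by
    calc δ ^ 2 * (m : ℝ) ≤ δ ^ 2 * (1600 * (K * (b * T))) :=
          mul_le_mul_of_nonneg_left hm2' hδ3.le
      _ = 1600 * (b * T) * (δ ^ 2 * K) := by ring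
      _ ≤ 1600 * (b * T) * (7 * ℓ) := mul_le_mul_of_nonneg_left hK2 (by positivity)
      _ = _ := by ring
  have hℓ1 : 1 ≤ ℓ := by
    rw [hℓ]
    have : (0 : ℝ) ≤ Nat.log 2 W := Nat.cast_nonneg _
    linarith
  have hmn : 800 * m ≤ N := by
    have h1 : δ ^ 2 * (800 * (m : ℝ)) ≤ δ ^ 2 * N := by
      calc δ ^ 2 * (800 * (m : ℝ)) = 800 * (δ ^ 2 * m) := by ring
        _ ≤ 800 * (11200 * (b * T) * ℓ) := mul_le_mul_of_nonneg_left hδm (by norm_num)
        _ = 8960000 * (b * T) * ℓ := by ring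
        _ ≤ 10 ^ 7 * (b * T) * ℓ := by
            apply mul_le_mul_of_nonneg_right _ (by linarith)
            apply mul_le_mul_of_nonneg_right (by norm_num) hbT0
        _ ≤ _ := hN
    have h2 : 800 * (m : ℝ) ≤ N := le_of_mul_le_mul_left h1 hδ3
    exact_mod_cast h2
  have hkm : k * (400 * m) ≤ N := by rw [hk]; exact Nat.div_mul_le_self N _
  have hk2 : 2 ≤ k := by
    rw [hk]
    exact (Nat.le_div_iff_mul_le (by omega)).2 (by omega)
  refine ⟨k, u, ?_, ?_⟩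
  · rw [hu]
    push_cast
    calc δ ^ 4 * (m : ℝ) ^ 2 = (δ ^ 2 * m) ^ 2 := by ring
      _ ≤ _ := pow_le_pow_left₀ (by positivity) hδm 2
  intro s Ω _ p D hD R hR
  obtain ⟨hp0, hp1, hgood⟩ := hD
  have hnd : ∀ F : Fin k → Finset (Fin u), ∀ i j, ¬ (F i ∩ F j).Nonempty ↔
      Disjoint (F i) (F j) := by
    intro F i j
    rw [Finset.not_nonempty_iff_eq_empty, Finset.disjoint_iff_inter_eq_empty]
  have h1 := average (T := T) (s := s) (N := N) (W := W) (K := K) hb hwb (le_of_eq hm.symm) hu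
    (show 1 ≤ k by omega)
    (by
      calc 400 * (k * m) = k * (400 * m) := by ring
        _ ≤ N := hkm) p hp0 hp1
    (fun ω c => (D ω).cell c) (Finset.univ.filter fun e : Fin k × Fin k => e.1 < e.2)
    (fun e he => (Finset.mem_filter.1 he).2.ne) hδ hδ2
    (by
      intro e he
      refine ⟨fun ω π => (D ω).verify π e.1 e.2, ?_, ?_⟩
      · intro F hF hd
        obtain ⟨π, hπ⟩ := (hgood F hF e.1 e.2 (Finset.mem_filter.1 he).2).1 ((hnd F _ _).2 hd)
        refine ⟨π, hπ.trans (le_of_eq ?_)⟩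
        exact @sum_filter_ind Ω _ p (fun ω => (D ω).Accepts T F e.1 e.2 π)
          (fun _ => Classical.propDecidable _)
      · intro F hF hd π
        have h2 := (hgood F hF e.1 e.2 (Finset.mem_filter.1 he).2).2
          (by by_contra h0; exact hd ((hnd F _ _).1 h0)) π
        refine le_trans (le_of_eq ?_) h2
        exact (@sum_filter_ind Ω _ p (fun ω => (D ω).Accepts T F e.1 e.2 π)
          (fun _ => Classical.propDecidable _)).symm) hK3 (by
      have := hK4 1 le_rfl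
      rwa [mul_one] at this) R
    (by
      intro F hF
      refine le_trans (le_of_eq ?_) (hR F hF)
      apply Finset.sum_congr rfl
      intro ω _
      congr 1
      have e1 : ∀ c : Fin s, (((D ω).entangled b F c).card : ℝ) =
          ∑ e ∈ Finset.univ.filter (fun e : Fin k × Fin k => e.1 < e.2), if
          (0 < ((D ω).cell c).bits F e.1 ∧ 0 < ((D ω).cell c).bits F e.2 ∧
            b < ((D ω).cell c).bits F e.1 + ((D ω).cell c).bits F e.2) then 1 else 0 := by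
        intro c
        rw [DS.entangled, ← Finset.filter_filter, Finset.card_filter]
        push_cast
        rfl
      simp only [e1]
      rw [Finset.sum_comm]
      apply Finset.sum_congr rfl
      intro e _
      rw [own, Finset.card_filter]
      push_cast
      rfl)
  have h2 : N ≤ 800 * (m * k) := by
    have h3 : N < 400 * m * (k + 1) := by rw [hk]; exact Nat.lt_mul_div_succ N (by omega)
    have h5 : 400 * m ≤ 400 * m * k := Nat.le_mul_of_pos_right _ (by omega)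
    have h6 : 400 * m * (k + 1) = 400 * m * k + 400 * m := by ring
    have h7 : 800 * (m * k) = 400 * m * k + 400 * m * k := by ring
    omega
  have hP := Pool.Agent.TH457.EntD.SI.card_pairs k hk2
  have h3 : (N : ℝ) ≤ 800 * (m * k) := by exact_mod_cast h2
  have hn0 : (0 : ℝ) ≤ N := Nat.cast_nonneg N
  have h4 : (N : ℝ) ^ 2 ≤ (800 * (m * k)) ^ 2 := pow_le_pow_left₀ hn0 h3 2
  have h6 : (m : ℝ) ^ 2 ≤ (1600 * (K * (b * T))) ^ 2 :=
    pow_le_pow_left₀ (Nat.cast_nonneg m) hm2' 2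
  have hK0 : (1 : ℝ) ≤ K := by exact_mod_cast hK1
  have h9 : (k : ℝ) ^ 2 ≤ 24 * (K * R) := by linarith
  have hKR : 0 ≤ (K : ℝ) * R := by
    have : (0 : ℝ) ≤ (k : ℝ) ^ 2 := by positivity
    linarith
  have hR0 : 0 ≤ R := by
    by_contra h
    push Not at h
    have : (K : ℝ) * R < 0 := mul_neg_of_pos_of_neg (by linarith) h
    linarith
  have h7 : (δ ^ 2 * K) ^ 3 ≤ (7 * ℓ) ^ 3 := pow_le_pow_left₀ (by positivity) hK2 3
  have h8 : (N : ℝ) ^ 2 ≤ 39321600000000 * (K : ℝ) ^ 3 * ((b * T) ^ 2 * R) := by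
    calc (N : ℝ) ^ 2 ≤ (800 * (m * k)) ^ 2 := h4
      _ = 640000 * (m : ℝ) ^ 2 * (k : ℝ) ^ 2 := by ring
      _ ≤ 640000 * (m : ℝ) ^ 2 * (24 * (K * R)) := by
          apply mul_le_mul_of_nonneg_left h9
          positivity
      _ ≤ 640000 * (1600 * (K * (b * T))) ^ 2 * (24 * (K * R)) := by
          apply mul_le_mul_of_nonneg_right _ (by positivity)
          linarith
      _ = _ := by ring
  calc δ ^ 6 * (N : ℝ) ^ 2 ≤ δ ^ 6 * (39321600000000 * (K : ℝ) ^ 3 * ((b * T) ^ 2 * R)) :=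
        mul_le_mul_of_nonneg_left h8 (by positivity)
    _ = 39321600000000 * (δ ^ 2 * K) ^ 3 * ((b * T) ^ 2 * R) := by ring
    _ ≤ 39321600000000 * (7 * ℓ) ^ 3 * ((b * T) ^ 2 * R) := by
        apply mul_le_mul_of_nonneg_right _ (by positivity)
        linarith
    _ = 13487308800000000 * (ℓ ^ 3 * ((b * T) ^ 2 * R)) := by ring
    _ ≤ 10 ^ 17 * (ℓ ^ 3 * ((b * T) ^ 2 * R)) := by
        apply mul_le_mul_of_nonneg_right (by norm_num)
        have : 0 ≤ ℓ ^ 3 := by positivity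
        positivity
    _ = _ := by ring

end Pool.Agent.Run7.h412.EC.SI
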