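import Pool.Agent.Run7.h412.EC.Tree

/-!
# Verification of proofs and entanglement: the corruption inequality for one pair
-/

set_option autoImplicit false

namespace Pool.Agent.Run7.h412.EC

open Pool.Agent.W959 Pool.Agent.W959.Ent Pool.Agent.TH457.EntD

variable {K n w s b T m a : ℕ}

/-- The procedure accepts, and no cell which entangles the pair `(i, j)` is read. -/
def AccF (b : ℕ) (B : Fin s → Board K (Finset (Fin n)) (Fin (2 ^ w)))
    (t : QTree s (Fin (2 ^ w)) Bool) (F : Fin K → Finset (Fin n)) (i j : Fin K) : Prop :=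
  t.bad (fun c => (B c).run F) (fun c => c ∈ own b B F i j) = 0 ∧
    t.run (fun c => (B c).run F) = true

theorem lab_none_iff {b : ℕ} (B : Fin s → Board K (Finset (Fin n)) (Fin (2 ^ w)))
    (G : Fin K → Fin n → Bool) {i j : Fin K} (hij : i ≠ j) (x y : Fin n → Bool) (c : Fin s) :
    lab b (B c) (fun l => Ent.setOf (G l)) i j hij (Ent.setOf x) (Ent.setOf y) = none ↔
      c ∈ own b B (fam G i j x y) i j := by
  constructor
  · intro h
    exact Finset.mem_filter.2 ⟨Finset.mem_univ _, lab_none h⟩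
  · intro h
    obtain ⟨-, h1, h2, h3⟩ := Finset.mem_filter.1 h
    unfold lab
    rw [if_neg h1.ne', if_neg h2.ne', dif_neg (not_le.2 h3)]

theorem bad_congr {V R : Type} (mem : Fin s → V) (P Q : Fin s → Prop) (h : ∀ c, P c ↔ Q c)
    (t : QTree s V R) : t.bad mem P = t.bad mem Q := by
  have : P = Q := funext fun c => propext (h c)
  rw [this]

/-- **Corruption.** -/
theorem pair_cor (hb : 1 ≤ b) (hwb : w ≤ b) (hm : 100 * (3 * b * T + 12 + a) ≤ m)
    (hn : n = m ^ 2) (B : Fin s → Board K (Finset (Fin n)) (Fin (2 ^ w)))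
    (t : QTree s (Fin (2 ^ w)) Bool) (hcost : ∀ mem, t.cost mem ≤ T) {i j : Fin K} (hij : i ≠ j)
    (G : Fin K → Fin n → Bool) :
    ex2 (1 / (m : ℝ)) n (fun x y => ind (AccF b B t (fam G i j x y) i j) *
        ind (conj x y = zero n)) ≤
      9634 / 10000 * ex2 (1 / (m : ℝ)) n (fun x y => ind (AccF b B t (fam G i j x y) i j)) +
        3 / 10000 * (1 / 2 : ℝ) ^ a := by
  have hm12 : 1200 ≤ m := le_trans (by omega) hm
  have hm10 : 10 ≤ m := by omega
  have hmr : 100 * ((3 * b * T + 12 + a : ℕ) : ℝ) ≤ m := by exact_mod_cast hm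
  have hm' : (1200 : ℝ) ≤ m := by exact_mod_cast hm12
  have hm0 : (0 : ℝ) < m := by linarith
  have hinv0 : 0 < 1 / (m : ℝ) := by positivity
  have hr1 : 0 ≤ 1 - 1 / (m : ℝ) := by
    have : 1 / (m : ℝ) ≤ 1 := by
      rw [div_le_one (by linarith)]; linarith
    linarith
  obtain ⟨e, he⟩ : ∃ e : ℝ, e = ((3 * b * T + 12 + a : ℕ) : ℝ) := ⟨_, rfl⟩
  have he0 : 0 ≤ e := by rw [he]; positivity
  rw [← he] at hmr
  obtain ⟨α, hα⟩ : ∃ α : ℝ, α = 2 ^ (e * (1 / ((m : ℝ) + 1))) := ⟨_, rfl⟩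
  obtain ⟨β, hβ⟩ : ∃ β : ℝ, β = 2 ^ (-e * (1 - 1 / ((m : ℝ) + 1))) := ⟨_, rfl⟩
  have hα0 : 0 ≤ α := by rw [hα]; positivity
  have hβ0 : 0 ≤ β := by rw [hβ]; positivity
  have hα1 : α ≤ 1007 / 1000 := by rw [hα]; exact two_rpow_le hmr
  have hβ1 : β * ((2 : ℝ) ^ (3 * b)) ^ T ≤ 1007 / 1000 * (1 / 4096) * (1 / 2) ^ a := by
    have h1 : β * ((2 : ℝ) ^ (3 * b)) ^ T = α * ((1 / 4096) * (1 / 2) ^ a) := by
      rw [hα, hβ, ← pow_mul, ← Real.rpow_natCast, ← Real.rpow_add (by norm_num),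
        show (1 / 4096 : ℝ) * (1 / 2) ^ a = 2 ^ (-(12 + a : ℝ)) by
          rw [Real.rpow_neg (by norm_num), Real.rpow_add (by norm_num), Real.rpow_natCast,
            mul_inv, one_div, one_div, inv_pow]; norm_num,
        ← Real.rpow_add (by norm_num)]
      congr 1
      rw [he]
      push_cast
      ring
    rw [h1, mul_assoc]
    exact mul_le_mul_of_nonneg_right hα1 (by positivity)
  obtain ⟨γ, hγ⟩ : ∃ γ : ℝ, γ = (1 - 1 / (22 * (m : ℝ) ^ 2)) ^ n := ⟨_, rfl⟩
  have hγ1 : γ ≤ 22 / 23 := by rw [hγ, hn]; exact gamma_le hm10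
  have hγ0 : 0 ≤ γ := by
    rw [hγ]
    apply pow_nonneg
    have : 1 / (22 * (m : ℝ) ^ 2) ≤ 1 := by
      rw [div_le_one (by positivity)]
      nlinarith
    linarith
  let φ : Fin s → (Fin n → Bool) → (Fin n → Bool) → Fin (2 ^ w) := fun c x y =>
    (B c).run (fam G i j x y)
  let q : Fin s → (Fin n → Bool) → (Fin n → Bool) → Option (Lab w b) := fun c x y =>
    lab b (B c) (fun l => Ent.setOf (G l)) i j hij (Ent.setOf x) (Ent.setOf y)
  have hM : ((Fintype.card (Lab w b) : ℕ) : ℝ) ≤ (2 : ℝ) ^ (3 * b) := by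
    exact_mod_cast card_lab hb hwb
  have h1 := tree_cor hm10 n w s φ ((2 : ℝ) ^ (3 * b)) (one_le_pow₀ (by norm_num)) hM q
    (fun c x x' y y' l h h' => (lab_spec (B c) _ hij _ _ _ _ l h h').1)
    (fun c x x' y y' l h h' => (lab_spec (B c) _ hij _ _ _ _ l h h').2)
    true hα0 hβ0 (fun P hP => by rw [hα, hβ]; exact holder_leaf hm10 e P hP) t T
    (fun _ => True) (fun _ => True)
  rw [← hγ] at h1
  simp only [true_and] at h1
  have hacc : ∀ x y, Pool.Agent.TH457.EntD.Acc φ q true t T x y ↔ AccF b B t (fam G i j x y) i j := by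
    intro x y
    unfold Pool.Agent.TH457.EntD.Acc AccF
    rw [bad_congr (fun c => φ c x y) (fun c => q c x y = none)
      (fun c => c ∈ own b B (fam G i j x y) i j) (fun c => lab_none_iff B G hij x y c)]
    constructor
    · rintro ⟨-, h2, h3⟩
      exact ⟨h2, h3⟩
    · rintro ⟨h2, h3⟩
      exact ⟨hcost _, h2, h3⟩
  simp only [hacc] at h1
  simp only [ind_and]
  have hE0 : 0 ≤ ex2 (1 / (m : ℝ)) n (fun x y => ind (AccF b B t (fam G i j x y) i j)) :=
    ex2_nonneg hinv0.le hr1 n fun x y => ind_nonneg _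
  have h2 : γ * α ≤ 9634 / 10000 := by
    calc γ * α ≤ 22 / 23 * (1007 / 1000) := mul_le_mul hγ1 hα1 hα0 (by norm_num)
      _ ≤ _ := by norm_num
  have h3 : γ * (β * ((2 : ℝ) ^ (3 * b)) ^ T) ≤ 3 / 10000 * (1 / 2 : ℝ) ^ a := by
    calc γ * (β * ((2 : ℝ) ^ (3 * b)) ^ T) ≤
          22 / 23 * (1007 / 1000 * (1 / 4096) * (1 / 2) ^ a) :=
          mul_le_mul hγ1 hβ1 (by positivity) (by norm_num)
      _ = 22 / 23 * (1007 / 1000 * (1 / 4096)) * (1 / 2) ^ a := by ring
      _ ≤ _ := mul_le_mul_of_nonneg_right (by norm_num) (by positivity)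
  refine h1.trans ?_
  rw [mul_add, ← mul_assoc]
  exact add_le_add (mul_le_mul_of_nonneg_right h2 hE0) h3

/-! ### large families -/

theorem ex_two (r : ℝ) (n : ℕ) :
    ex r n (fun x => (2 : ℝ) ^ (Ent.setOf x).card) = (1 + r) ^ n := by
  have h0 : ∀ (n : ℕ) (x : Fin n → Bool), (2 : ℝ) ^ (Ent.setOf x).card =
      ∏ i, if x i = true then 2 else 1 := by
    intro n x
    rw [Finset.prod_ite, Finset.prod_const, Finset.prod_const_one, mul_one]
    rfl
  simp only [h0]
  induction n with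
  | zero => simp [ex]
  | succ n ih =>
    have h1 : ∀ (c : Bool) (x : Fin n → Bool),
        (∏ i : Fin (n + 1), if (Fin.cons c x : Fin (n + 1) → Bool) i = true then (2 : ℝ) else 1) =
        (if c = true then 2 else 1) * ∏ i, if x i = true then 2 else 1 := by
      intro c x
      rw [Fin.prod_univ_succ]
      simp only [Fin.cons_zero, Fin.cons_succ]
    simp only [ex, h1, ex_mul, ih]
    rw [pow_succ]
    simp
    ring

theorem EE_two {r : ℝ} (K n : ℕ) :
    EE r K n (fun G => (2 : ℝ) ^ (∑ l, (fm G l).card)) = ((1 + r) ^ n) ^ K := by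
  unfold EE
  have h1 := Pool.Agent.Run7.h412.MA.prod_E (mu r n) (fun x => (2 : ℝ) ^ (Ent.setOf x).card) K
  rw [← ex_eq_sum, ex_two] at h1
  rw [← h1]
  refine Finset.sum_congr rfl fun G _ => ?_
  rw [Finset.prod_pow_eq_pow_sum]

/-- the probability that a random family is large -/
theorem large (hm : 1 ≤ m) (hn : n = m ^ 2) (hK : 1 ≤ K) {N : ℕ} (hN : 400 * (K * m) ≤ N) :
    EE (1 / (m : ℝ)) K n (fun G => ind (N < ∑ l, (fm G l).card)) ≤ (1 / 2) ^ m := by
  have hm' : (1 : ℝ) ≤ m := by exact_mod_cast hm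
  have hm0 : (0 : ℝ) < m := by linarith
  have hinv0 : 0 ≤ 1 / (m : ℝ) := by positivity
  have hr1 : 0 ≤ 1 - 1 / (m : ℝ) := by
    have : 1 / (m : ℝ) ≤ 1 := by
      rw [div_le_one (by linarith)]; linarith
    linarith
  have h1 : EE (1 / (m : ℝ)) K n (fun G => ind (N < ∑ l, (fm G l).card)) ≤
      EE (1 / (m : ℝ)) K n (fun G => (1 / 2 : ℝ) ^ N * (2 : ℝ) ^ (∑ l, (fm G l).card)) := by
    apply EE_mono hinv0 hr1
    intro G
    by_cases h : N < ∑ l, (fm G l).card
    · rw [ind_true h]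
      calc (1 : ℝ) = (1 / 2 : ℝ) ^ N * 2 ^ N := by rw [← mul_pow]; norm_num
        _ ≤ _ := by
          apply mul_le_mul_of_nonneg_left _ (by positivity)
          exact pow_le_pow_right₀ (by norm_num) h.le
    · rw [ind_false h]
      positivity
  refine h1.trans ?_
  rw [EE_mul, EE_two]
  have h2 : ((1 + 1 / (m : ℝ)) ^ n) ^ K ≤ 4 ^ (K * m) := by
    have h3 : 1 + 1 / (m : ℝ) ≤ Real.exp (1 / m) := by
      have := Real.add_one_le_exp (1 / (m : ℝ))
      linarith
    have h4 : (1 + 1 / (m : ℝ)) ^ n ≤ 4 ^ m := by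
      calc (1 + 1 / (m : ℝ)) ^ n ≤ Real.exp (1 / m) ^ n :=
            pow_le_pow_left₀ (by positivity) h3 _
        _ = Real.exp 1 ^ m := by
            rw [← Real.exp_nat_mul, ← Real.exp_nat_mul, hn]
            congr 1
            push_cast
            field_simp
        _ ≤ 4 ^ m := by
            apply pow_le_pow_left₀ (Real.exp_pos _).le
            have := Real.exp_one_lt_d9
            linarith
    calc ((1 + 1 / (m : ℝ)) ^ n) ^ K ≤ (4 ^ m) ^ K := pow_le_pow_left₀ (by positivity) h4 _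
      _ = _ := by rw [← pow_mul, mul_comm m K]
  have h3 : (1 / 2 : ℝ) ^ N ≤ (1 / 2) ^ (m + 2 * (K * m)) := by
    apply pow_le_pow_of_le_one (by norm_num) (by norm_num)
    have : m ≤ K * m := Nat.le_mul_of_pos_left _ hK
    omega
  calc (1 / 2 : ℝ) ^ N * ((1 + 1 / (m : ℝ)) ^ n) ^ K ≤
        (1 / 2) ^ (m + 2 * (K * m)) * 4 ^ (K * m) :=
        mul_le_mul h3 h2 (by positivity) (by positivity)
    _ = (1 / 2) ^ m := by
        rw [pow_add, mul_assoc, pow_mul, ← mul_pow]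
        norm_num

end Pool.Agent.Run7.h412.EC
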