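import Pool.Agent.TH457.EntD.Average
import Pool.Agent.Run7.h412.MA.Param

/-!
# Verification of proofs and entanglement: operations on query procedures
-/

set_option autoImplicit false

namespace Pool.Agent.Run7.h412.EC

open Pool.Agent.W959 Pool.Agent.W959.Ent

variable {s s' : ℕ} {V : Type}

/-- the procedure is stopped with the answer `false` when it wants to read more than `t` cells -/
def cut : ℕ → QTree s V Bool → QTree s V Bool
  | _, .out a => .out a
  | 0, .probe _ _ => .out false
  | t + 1, .probe c next => .probe c fun v => cut t (next v)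

theorem cut_run (mem : Fin s → V) (T : QTree s V Bool) : ∀ t : ℕ,
    (cut t T).run mem = true ↔ T.run mem = true ∧ T.cost mem ≤ t := by
  induction T with
  | out a =>
    intro t
    cases t <;> simp [cut, QTree.run, QTree.cost]
  | probe c next ih =>
    intro t
    cases t with
    | zero => simp [cut, QTree.run, QTree.cost]
    | succ t =>
      simp only [cut, QTree.run, QTree.cost]
      rw [ih]
      constructor
      · rintro ⟨h1, h2⟩
        exact ⟨h1, by omega⟩
      · rintro ⟨h1, h2⟩
        exact ⟨h1, by omega⟩

theorem cut_cost (mem : Fin s → V) (T : QTree s V Bool) : ∀ t : ℕ,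
    (cut t T).cost mem ≤ t := by
  induction T with
  | out a =>
    intro t
    cases t <;> simp [cut, QTree.cost]
  | probe c next ih =>
    intro t
    cases t with
    | zero => simp [cut, QTree.cost]
    | succ t =>
      simp only [cut, QTree.cost]
      have := ih (mem c) t
      omega

/-- the procedure for another numbering of the cells -/
def mapQ (f : Fin s → Fin s') : QTree s V Bool → QTree s' V Bool
  | .out a => .out a
  | .probe c next => .probe (f c) fun v => mapQ f (next v)

theorem mapQ_run (f : Fin s → Fin s') (mem : Fin s' → V) (T : QTree s V Bool) :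
    (mapQ f T).run mem = T.run fun c => mem (f c) := by
  induction T with
  | out a => rfl
  | probe c next ih =>
    simp only [mapQ, QTree.run]
    exact ih _

theorem mapQ_cost (f : Fin s → Fin s') (mem : Fin s' → V) (T : QTree s V Bool) :
    (mapQ f T).cost mem = T.cost fun c => mem (f c) := by
  induction T with
  | out a => rfl
  | probe c next ih =>
    simp only [mapQ, QTree.cost]
    rw [ih]

/-- run `T`, and continue with the procedure given by the answer -/
def thenQ (g : Bool → QTree s V Bool) : QTree s V Bool → QTree s V Bool
  | .out a => g a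
  | .probe c next => .probe c fun v => thenQ g (next v)

theorem thenQ_run (g : Bool → QTree s V Bool) (mem : Fin s → V) (T : QTree s V Bool) :
    (thenQ g T).run mem = (g (T.run mem)).run mem := by
  induction T with
  | out a => rfl
  | probe c next ih =>
    simp only [thenQ, QTree.run]
    exact ih _

theorem thenQ_cost (g : Bool → QTree s V Bool) (mem : Fin s → V) (T : QTree s V Bool) :
    (thenQ g T).cost mem = T.cost mem + (g (T.run mem)).cost mem := by
  induction T with
  | out a => simp [thenQ, QTree.cost, QTree.run]
  | probe c next ih =>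
    simp only [thenQ, QTree.cost, QTree.run]
    rw [ih]
    omega

/-- the majority vote of a list of procedures -/
def majQ (K : ℕ) : List (QTree s V Bool) → ℕ → QTree s V Bool
  | [], a => .out (decide (K < 2 * a))
  | T :: L, a => thenQ (fun b => majQ K L (a + if b = true then 1 else 0)) T

theorem majQ_run (K : ℕ) (mem : Fin s → V) (L : List (QTree s V Bool)) : ∀ a : ℕ,
    (majQ K L a).run mem =
      decide (K < 2 * (a + (L.map fun T => if T.run mem = true then 1 else 0).sum)) := by
  induction L with
  | nil => intro a; simp [majQ, QTree.run]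
  | cons T L ih =>
    intro a
    simp only [majQ, thenQ_run, ih, List.map_cons, List.sum_cons]
    congr 3
    omega

theorem majQ_cost (K : ℕ) (mem : Fin s → V) (L : List (QTree s V Bool)) : ∀ a : ℕ,
    (majQ K L a).cost mem = (L.map fun T => T.cost mem).sum := by
  induction L with
  | nil => intro a; simp [majQ, QTree.cost]
  | cons T L ih =>
    intro a
    simp only [majQ, thenQ_cost, ih, List.map_cons, List.sum_cons]

/-- the majority vote of independent copies -/
def ampQ (t K : ℕ) (T : Fin K → QTree s V Bool) : QTree (K * s) V Bool :=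
  majQ K (List.ofFn fun i => mapQ (fun c => finProdFinEquiv (i, c)) (cut t (T i))) 0

theorem ampQ_run (t K : ℕ) (T : Fin K → QTree s V Bool) (mem : Fin (K * s) → V) :
    (ampQ t K T).run mem = true ↔ K < 2 * ∑ i,
      if (cut t (T i)).run (fun c => mem (finProdFinEquiv (i, c))) = true then 1 else 0 := by
  unfold ampQ
  rw [majQ_run, List.map_ofFn, List.sum_ofFn, zero_add, decide_eq_true_iff]
  simp only [Function.comp_apply, mapQ_run]

theorem ampQ_cost (t K : ℕ) (T : Fin K → QTree s V Bool) (mem : Fin (K * s) → V) :
    (ampQ t K T).cost mem ≤ K * t := by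
  unfold ampQ
  rw [majQ_cost, List.map_ofFn, List.sum_ofFn]
  calc _ ≤ ∑ _i : Fin K, t := by
        refine Finset.sum_le_sum fun i _ => ?_
        simp only [Function.comp_apply, mapQ_cost]
        exact cut_cost _ _ _
    _ = K * t := by simp

/-- the marginals of the product measure -/
theorem marginal {Ω : Type} [Fintype Ω] (p : Ω → ℝ) (hp1 : ∑ ω, p ω = 1) {K : ℕ} (i : Fin K)
    (f : Ω → ℝ) : ∑ ω : Fin K → Ω, (∏ l, p (ω l)) * f (ω i) = ∑ ω, p ω * f ω := by
  classical
  rw [resample p hp1 i]
  simp only [Function.update_self]
  rw [← Finset.sum_mul]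
  have h1 : ∑ ω : Fin K → Ω, ∏ l, p (ω l) = 1 := by
    have := Pool.Agent.Run7.h412.MA.prod_E p (fun _ => (1 : ℝ)) K
    simp only [Finset.prod_const_one, mul_one, hp1, one_pow] at this
    exact this
  rw [h1, one_mul]

theorem total {Ω : Type} [Fintype Ω] (p : Ω → ℝ) (hp1 : ∑ ω, p ω = 1) (K : ℕ) :
    ∑ ω : Fin K → Ω, ∏ l, p (ω l) = 1 := by
  have := Pool.Agent.Run7.h412.MA.prod_E p (fun _ => (1 : ℝ)) K
  simp only [Finset.prod_const_one, mul_one, hp1, one_pow] at this
  exact this

end Pool.Agent.Run7.h412.EC
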